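import Pool.Agent.H306R2.RG.Defs

set_option autoImplicit false

/-!
Project QP (helper169): averaged positivity of the completed quadratic Dirichlet L-functions on the
real line (MP_0016c7_nt). Definitions and the statements of the parts.
-/

namespace Pool.Agent.W169.QP

open Finset Filter Topology MeasureTheory Pool.Agent.H306R2.RZ Pool.Agent.H306R2.RG

noncomputable section

/-- the completed L-function on the real line -/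
def Lam {N : ℕ} [NeZero N] (χ : DirichletCharacter ℂ N) (σ : ℝ) : ℝ :=
  (N : ℝ) ^ (σ / 2) * (DirichletCharacter.completedLFunction χ (σ : ℂ)).re

/-- the value `K_d(x) L(1/2 + x/L, χ)` -/
def Nn (φ : FD) (L : ℝ) (d : ℕ) (x : ℝ) : ℝ := Kdg φ L d x * LLg φ d (1 / 2 + x / L)

/-- the same value through the approximate functional equation -/
def Na (φ : FD) (L : ℝ) (ρ : ℝ → ℝ) (d : ℕ) (x : ℝ) : ℝ :=
  Nfg φ L (KGg φ L (beg φ L d) (Ph ρ x)) d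

/-- the mollifier -/
def Mf (φ : FD) (L : ℝ) (r κ : ℝ → ℝ) (d : ℕ) (x : ℝ) : ℝ :=
  Mdg φ 2 L (fun t => Real.exp (-(x * t)) * r t * κ t) d

/-- good discriminants -/
def GoodD (φ : FD) (L X0 : ℝ) (d : ℕ) : Prop :=
  (∀ x : ℝ, X0 ≤ x → x ≤ L / 2 → 0 < Nn φ L d x) ∧
    2 * Real.exp (-(X0 / 8)) * (∫ x in (0 : ℝ)..X0, |Nn φ L d x|) <
      ∫ x in (2 * X0)..(3 * X0), Nn φ L d x

/-- part MM: the mixed mollified second moment -/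
def S_MM : Prop := ∀ (φ : FD), FG φ → ∀ (F : ℝ → ℝ), TF F → (∀ x, 0 ≤ F x) → ∀ (δ e θ : ℝ),
    0 < δ → δ ≤ 1 / 64 → 0 < e → e ≤ θ / 100 → Adm2 (1 / 2 + 3 * δ) θ → ∀ (ρ r κ : ℝ → ℝ),
    RH δ ρ → ST (θ / 4) θ r → KP δ e κ →
    ∃ (C L0 : ℝ) (m : ℕ), 0 < C ∧ ∀ L : ℝ, L0 ≤ L → ∀ x y : ℝ, 0 ≤ x → x ≤ L / 2 → 0 ≤ y →
      y ≤ L / 2 →
      EAg φ F (Real.exp L) (fun d => (Na φ L ρ d x * Mf φ L r κ d y) ^ 2) ≤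
        C * (1 + x) ^ m * (1 + y) ^ m * Real.exp (4 * e * (x + y))

/-- part TG: the mollified value is bounded from below for most `d` -/
def S_TG : Prop := ∀ (φ : FD), FG φ → CG φ → ∀ (F : ℝ → ℝ), TF F → (∀ x, 0 ≤ F x) →
    ∀ (δ e θ : ℝ), 0 < δ → δ ≤ 1 / 64 → 0 < e → e ≤ θ / 100 → Adm2 (1 / 2 + 3 * δ) θ →
    ∀ (ρ r κ : ℝ → ℝ), RH δ ρ → ST (θ / 4) θ r → KP δ e κ →
    ∃ C c0 c1 L0 : ℝ, 0 < C ∧ 0 < c0 ∧ 0 < c1 ∧ ∀ L : ℝ, L0 ≤ L → ∀ X0 : ℝ, 1 ≤ X0 →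
      X0 ≤ L / 2 →
      cnt F L (SFg φ ∩ {d | ∃ x : ℝ, X0 ≤ x ∧ x ≤ L / 2 ∧
        Na φ L ρ d x * Mf φ L r κ d x < c1}) ≤ C * Real.exp (-(c0 * X0))

/-- part PR: most discriminants are good -/
def S_PR : Prop := ∀ (φ : FD), Fam φ → ∀ (F : ℝ → ℝ), TF F → (∀ x, 0 ≤ F x) →
    ∃ C c L0 : ℝ, 0 < C ∧ 0 < c ∧ ∀ L : ℝ, L0 ≤ L → ∀ X0 : ℝ, 1 ≤ X0 → 6 * X0 ≤ L →
      cnt F L (SFg φ ∩ {d | ¬ GoodD φ L X0 d}) ≤ C * Real.exp (-(c * X0))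

/-- part KER: unimodal averages of a function which is large outside a short interval -/
def S_KER : Prop := ∀ (h k : ℝ → ℝ) (X0 y : ℝ), 1 ≤ X0 → Continuous h → (∀ x, h (-x) = h x) →
    (∀ x, X0 ≤ x → 0 < h x) →
    Real.exp (3 * X0 / 8) * (∫ x in (-X0)..X0, |h x|) < (∫ x in (2 * X0)..(3 * X0), h x) →
    (∀ u, 0 ≤ k u) → (∀ u, k (-u) = k u) → AntitoneOn k (Set.Ici 0) → 0 < k 0 →
    Real.exp (-(3 * X0 / 8)) * k 0 ≤ k (3 * X0) →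
    Integrable (fun x => h x * k (x - y)) → 0 < ∫ x, h x * k (x - y)

/-- part FE: the completed function is continuous, symmetric, and positive for `σ ≥ 1` -/
def S_FE : Prop := ∀ (N : ℕ) (_ : NeZero N) (χ : DirichletCharacter ℂ N), χ.IsPrimitive →
    χ ^ 2 = 1 → χ ≠ 1 →
    Continuous (Lam χ) ∧ (∀ σ : ℝ, Lam χ (1 - σ) = Lam χ σ) ∧ ∀ σ : ℝ, 1 ≤ σ → 0 < Lam χ σ

/-- part REL: relation with the functions of project RG -/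
def S_REL : Prop := ∀ (φ : FD), Fam φ → ∀ d : ℕ, d ∈ SFg φ → ∀ (N : ℕ) (_ : NeZero N)
    (χ : DirichletCharacter ℂ N), χ.IsPrimitive → χ ^ 2 = 1 → χ ≠ 1 → N = φ.r * d →
    (∀ n : ℕ, n ≠ 0 → χ (n : ZMod N) = ((cf φ d n : ℝ) : ℂ)) →
    0 < g0g φ ∧ ∀ L : ℝ, 0 < L → ∀ x : ℝ, 0 ≤ x →
      Lam χ (1 / 2 + x / L) =
        (((φ.r : ℝ) * d) ^ (1 / 4 : ℝ) * g0g φ) * Real.exp (x / 2) * Nn φ L d x

/-- part CNT: dyadic summation of the weighted counts -/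
def S_CNT : Prop := ∀ (A : FD → ℝ → ℝ → Set ℕ),
    (∀ (φ : FD), Fam φ → ∀ (F : ℝ → ℝ), TF F → (∀ x, 0 ≤ F x) →
      ∃ C c L0 : ℝ, 0 < C ∧ 0 < c ∧ ∀ L : ℝ, L0 ≤ L → ∀ X0 : ℝ, 1 ≤ X0 → 6 * X0 ≤ L →
        cnt F L (SFg φ ∩ A φ L X0) ≤ C * Real.exp (-(c * X0))) →
    ∃ C c : ℝ, 0 < C ∧ 0 < c ∧ ∀ (φ : FD), Fam φ → ∀ X R : ℝ, 2 ≤ X → 0 ≤ R →
      R ≤ Real.log X / 2 →
      (((SFg φ ∩ {d | (φ.r : ℝ) * d ≤ X}) ∩ {d | ¬ ∃ L : ℝ, Real.log X / 2 ≤ L ∧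
        L ≤ Real.log X ∧ 6 ≤ R ∧ d ∉ A φ L (R / 6)}).ncard : ℝ) ≤ C * Real.exp (-(c * R)) * X

end

end Pool.Agent.W169.QP
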